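import Pool.Agent.BLP.StmtsA

/-!
# Squad BLP, row A_LEV: fewer levels
-/

namespace Pool.Agent.BLP.H67

open Pool.Agent.BLP

theorem a_lev (hO : OneStmt) (hS : SpkStmt) : LevStmt := by
  intro b hb m k n s t hmk hkn hst
  have h1 := hS b hb m k n s s t hmk hkn le_rfl hst
  have h2 := hS b hb m k n s t t hmk hkn hst le_rfl
  rw [(hO b).2 m k s hmk] at h1
  rw [(hO b).2 k n t hkn] at h2
  constructor <;> linarith

end Pool.Agent.BLP.H67
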