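import Pool.Agent.BLP.StmtsD

/-!
# Squad BLP, row D_RES: the final statement from the main theorem
-/

namespace Pool.Agent.BLP.H67

open Pool.Agent.BLP
open MeasureTheory ProbabilityTheory Filter Topology

theorem pos_comap {θ : ℝ} (hθ : 0 < θ) (s : Set ℝ) :
    ∀ᶠ q : ℚ in comap (fun q : ℚ => (q : ℝ)) (𝓝[s] θ), 0 < q := by
  have h1 : ∀ᶠ x : ℝ in 𝓝[s] θ, 0 < x := (eventually_gt_nhds hθ).filter_mono nhdsWithin_le_nhds
  have h2 := (tendsto_comap (f := fun q : ℚ => (q : ℝ)) (x := 𝓝[s] θ)).eventually h1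
  filter_upwards [h2] with q hq
  exact_mod_cast hq

theorem d_res : ResStmt' := by
  intro hM hU Ω _ P B hB
  obtain ⟨β, hin, hae⟩ := hM Ω P B hB
  have hcon : ∀ᵐ ω ∂P, Con (fun q x y => β q x y ω) := by
    filter_upwards [hae] with ω h using h.1
  refine ⟨⟨β, hin, hcon⟩, fun β' hin' hcon' => ?_⟩
  have hu := hU Ω P B β β' hin hin' hcon hcon'
  filter_upwards [hae, hu] with ω h1 h2
  obtain ⟨-, hlim, hgood⟩ := h1
  intro θ hθ
  obtain ⟨hl, hr, h3, h4⟩ := hlim θ hθ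
  refine ⟨hl, hr, ?_, ?_, fun m τ hg hd => hgood θ hθ hl hr h3 h4 m τ hg hd⟩
  · intro m t
    refine (h3 m t).congr' ?_
    filter_upwards [pos_comap hθ _] with q hq
    exact h2 q hq _ _
  · intro m t
    refine (h4 m t).congr' ?_
    filter_upwards [pos_comap hθ _] with q hq
    exact h2 q hq _ _

end Pool.Agent.BLP.H67
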