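import Pool.Agent.BLP.StmtsE

/-!
# Squad BLP, row E_ELR: localisation of geodesics, right side
-/

namespace Pool.Agent.BLP.H67

open Pool.Agent.BLP MeasureTheory ProbabilityTheory Filter Topology Finset
open scoped ENNReal

/-- the deterministic part -/
theorem elr_core (hSPK : SpkStmt) (hLEV : LevStmt) (hECT : EctStmt) {b : Env} (hb : Cts b)
    (m : ℤ) (s x₁ e u : ℝ) (M n h J : ℕ) (hh : 0 < h) (hJ : (M : ℤ) - m < J * h)
    (hmM : m ≤ M) (hMn : M ≤ n) (hs : s ≤ x₁) (hu : x₁ ≤ u) (hue : u ≤ e)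
    (hL : L b m s n e ≤ L b m s M u + L b M u n e) :
    ∃ j < J, (j * h : ℤ) ≤ M - m ∧
      L b m s n e - L b (m + j * h) x₁ n e ≤ L b m s (m + (j + 1) * h) x₁ := by
  obtain ⟨k, hk1, hk2, hk3⟩ := hECT b hb m M s x₁ u hmM hs hu
  have h1 := hSPK b hb k M n x₁ u e hk2 (by exact_mod_cast hMn) hu hue
  obtain ⟨kk, hkk⟩ := Int.eq_ofNat_of_zero_le (sub_nonneg.2 hk1)
  have hj1 : kk / h * h ≤ kk := Nat.div_mul_le_self kk h
  have hj2 : kk < (kk / h + 1) * h := by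
    have := Nat.lt_div_mul_add (a := kk) hh
    linarith [this]
  have hk : k = m + kk := by linarith
  have hj1' : ((kk / h : ℕ) * h : ℤ) ≤ kk := by exact_mod_cast hj1
  have hj2' : (kk : ℤ) < ((kk / h : ℕ) + 1) * h := by exact_mod_cast hj2
  have hkM : (kk : ℤ) ≤ M - m := by linarith
  refine ⟨kk / h, ?_, by linarith, ?_⟩
  · have h3 : ((kk / h : ℕ) * h : ℤ) < J * h := by linarith
    have h4 : kk / h * h < J * h := by exact_mod_cast h3
    exact Nat.lt_of_mul_lt_mul_right h4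
  · have h5 := (hLEV b hb m k (m + ((kk / h : ℕ) + 1) * h) s x₁ hk1 (by linarith) hs).2
    have h6 := (hLEV b hb (m + (kk / h : ℕ) * h) k n x₁ e (by linarith)
      (by linarith [show (M : ℤ) ≤ n by exact_mod_cast hMn]) (hu.trans hue)).1
    linarith

theorem e_elr (hSPK : SpkStmt) (hLEV : LevStmt) (hECT : EctStmt) (hELV : ElvStmt)
    (hELS : ElsStmt) (hEDR : EdrStmt) : ElrStmt := by
  intro X _ μ B c hSp hLLN q q₂ hq hqq m s δ hδ
  have hc : 0 < c := hLLN.1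
  have hq₂ : (0 : ℝ) < q₂ := by
    have : (0 : ℚ) < q₂ := hq.trans hqq
    exact_mod_cast this
  obtain ⟨η, J, M₁, hη, hJ1, hM₁⟩ := hEDR c q q₂ m s hc (by exact_mod_cast hq)
    (by exact_mod_cast hqq)
  have hJ0 : (0 : ℝ) < J := by exact_mod_cast hJ1
  have hJ1' : (1 : ℝ) ≤ J := by exact_mod_cast hJ1
  have hδ' : 0 < δ / (2 * J) := by positivity
  set A₁ : ℝ := 1 + 2 * |(m : ℝ)| + J + q₂ with hA₁
  have hA₁0 : 0 < A₁ := by positivity
  set A₂ : ℝ := 2 * J * (q₂ + 1) with hA₂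
  have hA₂0 : 0 < A₂ := by positivity
  obtain ⟨M₂, hM₂⟩ := hELV X μ B c hSp hLLN q hq m s A₁ η (δ / (2 * J)) hA₁0 hη hδ'
  obtain ⟨N₀, hN₀⟩ := hELS X μ B c hSp hLLN A₂ η (δ / (2 * J)) hA₂0 hη hδ'
  refine ⟨M₁ + M₂ + (⌈|(s : ℝ)| / q₂⌉₊ + ⌈|(s : ℝ)|⌉₊ + 2 * m.natAbs + J + 2 * J * N₀ + 1), ?_⟩
  intro M hM
  -- consequences of the size of `M`
  have hb1 : M₁ ≤ M := by omega
  have hb2 : M₂ ≤ M := by omega
  have hM'' : ⌈|(s : ℝ)| / q₂⌉₊ + ⌈|(s : ℝ)|⌉₊ + 2 * m.natAbs + J + 2 * J * N₀ + 1 ≤ M := by omega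
  have hM' := (Nat.cast_le (α := ℝ)).2 hM''
  push_cast at hM'
  have hna : ((m.natAbs : ℕ) : ℝ) = |(m : ℝ)| := by
    rw [Nat.cast_natAbs, Int.cast_abs]
  rw [hna] at hM'
  have hc1 : |(s : ℝ)| / q₂ ≤ ⌈|(s : ℝ)| / q₂⌉₊ := Nat.le_ceil _
  have hc2 : |(s : ℝ)| ≤ ⌈|(s : ℝ)|⌉₊ := Nat.le_ceil _
  have hm0 : 0 ≤ |(m : ℝ)| := abs_nonneg _
  have hs0 : 0 ≤ |(s : ℝ)| := abs_nonneg _
  have hJN : (0 : ℝ) ≤ 2 * J * N₀ := by positivity
  have hsq0 : 0 ≤ |(s : ℝ)| / q₂ := by positivity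
  have hMs : |(s : ℝ)| ≤ M * q₂ := by
    have : |(s : ℝ)| / q₂ ≤ M := by linarith
    rwa [div_le_iff₀ hq₂] at this
  have hMs2 : |(s : ℝ)| ≤ M := by linarith
  have hMm : 2 * |(m : ℝ)| ≤ M := by linarith
  have hMJ : |(m : ℝ)| + J ≤ M := by linarith
  have hMN : (2 : ℝ) * J * N₀ ≤ M := by linarith
  have hM1 : (1 : ℝ) ≤ M := by linarith
  have hsle : (s : ℝ) ≤ M * q₂ := (le_abs_self _).trans hMs
  have hmle : (m : ℝ) ≤ |(m : ℝ)| := le_abs_self _
  have hmge : -|(m : ℝ)| ≤ (m : ℝ) := neg_abs_le _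
  have hmM : m ≤ (M : ℤ) := by
    have : (m : ℝ) ≤ M := by linarith
    exact_mod_cast this
  -- the step
  obtain ⟨MM, hMM⟩ := Int.eq_ofNat_of_zero_le (sub_nonneg.2 hmM)
  have hMMr : (M : ℝ) - m = MM := by exact_mod_cast hMM
  set h : ℕ := MM / J + 1 with hh
  have hh0 : 0 < h := Nat.succ_pos _
  have hh1 : MM < J * h := by
    have := Nat.lt_mul_div_succ MM (show 0 < J from hJ1)
    rw [hh]
    exact this
  have hh2 : J * h ≤ MM + J := by
    have := Nat.mul_div_le MM J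
    rw [hh, mul_add, mul_one]
    omega
  have hh1r : (MM : ℝ) < J * h := by exact_mod_cast hh1
  have hh2r : (J : ℝ) * h ≤ MM + J := by exact_mod_cast hh2
  have hh3r : (h : ℝ) ≤ ((M : ℝ) - m) / J + 1 := by
    rw [hMMr, div_add_one hJ0.ne', le_div_iff₀ hJ0]
    linarith
  have hhN : (N₀ : ℝ) ≤ h := by
    have h1 : (M : ℝ) / 2 ≤ MM := by linarith
    have h2 : (J : ℝ) * N₀ ≤ J * h := by linarith
    exact le_of_mul_le_mul_left h2 hJ0
  have hhN' : N₀ ≤ h := by exact_mod_cast hhN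
  have hhx : (M : ℝ) * q₂ - s ≤ A₂ * h := by
    have h1 : (M : ℝ) / 2 ≤ MM := by linarith
    have h2 : (M : ℝ) / 2 ≤ J * h := by linarith
    have h3 : 2 * (q₂ + 1) * ((M : ℝ) / 2) ≤ 2 * (q₂ + 1) * (J * h) :=
      mul_le_mul_of_nonneg_left h2 (by positivity)
    have h4 : -(s : ℝ) ≤ |(s : ℝ)| := neg_le_abs _
    rw [hA₂]
    nlinarith [h3, h4, hMs2]
  -- the numbers `n₀ j`
  have hex : ∀ j : ℕ, j < J → ∃ n₀ : ℕ, ∀ n : ℕ, n₀ ≤ n →
      μ {x | η * M < |L (B x) m s n (n * q) - L (B x) (m + j * h) (M * q₂) n (n * q) -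
          c / 2 * (((m : ℝ) + j * h) * Real.sqrt q + M * q₂ / Real.sqrt q)|} ≤
        ENNReal.ofReal (δ / (2 * J)) := by
    intro j hj
    have hjh : (j : ℝ) * h ≤ MM + J := by
      have : (j : ℝ) * h ≤ J * h := by
        have : (j : ℝ) ≤ J := by exact_mod_cast hj.le
        exact mul_le_mul_of_nonneg_right this (by positivity)
      linarith
    have hjh0 : (0 : ℝ) ≤ (j : ℝ) * h := by positivity
    have hk : |(((m + j * h : ℤ)) : ℝ)| ≤ A₁ * M := by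
      push_cast
      have h1 : |(m : ℝ) + j * h| ≤ |(m : ℝ)| + (M + |(m : ℝ)| + J) := by
        refine (abs_add_le _ _).trans ?_
        rw [abs_of_nonneg hjh0]
        linarith
      refine h1.trans ?_
      rw [hA₁]
      have h2 : (2 * |(m : ℝ)| + J + q₂) * 1 ≤ (2 * |(m : ℝ)| + J + q₂) * M :=
        mul_le_mul_of_nonneg_left hM1 (by positivity)
      nlinarith [h2]
    have hy : |(((M * q₂ : ℚ)) : ℝ)| ≤ A₁ * M := by
      push_cast
      rw [abs_of_nonneg (by positivity), hA₁]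
      have h2 : 0 ≤ (1 + 2 * |(m : ℝ)| + J) * M := by positivity
      nlinarith [h2]
    obtain ⟨n₀, hn₀⟩ := hM₂ M hb2 (m + j * h) (M * q₂) hk hy
    refine ⟨n₀, fun n hn => ?_⟩
    have h3 := hn₀ n hn
    push_cast at h3
    exact h3
  choose! n₀ hn₀ using hex
  refine ⟨M + ∑ j ∈ Finset.range J, n₀ j, ?_⟩
  intro n hn
  have hMn : M ≤ n := by omega
  have hnj : ∀ j, j < J → n₀ j ≤ n := by
    intro j hj
    have h1 : n₀ j ≤ ∑ j ∈ Finset.range J, n₀ j :=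
      Finset.single_le_sum (f := n₀) (fun i _ => Nat.zero_le _) (Finset.mem_range.2 hj)
    omega
  set E1 : ℕ → Set X := fun j => {x | η * M < |L (B x) m s n (n * q) -
    L (B x) (m + j * h) (M * q₂) n (n * q) -
          c / 2 * (((m : ℝ) + j * h) * Real.sqrt q + M * q₂ / Real.sqrt q)|} with hE1
  set E2 : ℕ → Set X := fun j => {x | ∃ e : ℝ, s ≤ e ∧ e ≤ s + A₂ * ((((m + (j + 1) * h : ℤ)) : ℝ) - m) ∧
        η * ((((m + (j + 1) * h : ℤ)) : ℝ) - m) < |L (B x) m s (m + (j + 1) * h : ℤ) e -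
          c * Real.sqrt (((((m + (j + 1) * h : ℤ)) : ℝ) - m) * (e - s))|} with hE2
  have hsub : {x | ∃ u : ℝ, M * q₂ ≤ u ∧ u ≤ n * q ∧
        L (B x) m s n (n * q) ≤ L (B x) m s M u + L (B x) M u n (n * q)} ⊆
      ⋃ j ∈ Finset.range J, (E1 j ∪ E2 j) := by
    rintro x ⟨u, hu1, hu2, hu3⟩
    obtain ⟨j, hj, hj1, hj2⟩ := elr_core hSPK hLEV hECT (hSp.cts x) m s (M * q₂) (n * q) u M n h J
      hh0 (by rw [hMM]; exact_mod_cast hh1) hmM hMn hsle hu1 hu2 hu3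
    rw [Set.mem_iUnion₂]
    refine ⟨j, Finset.mem_range.2 hj, ?_⟩
    by_contra hcon
    rw [Set.mem_union, not_or] at hcon
    obtain ⟨hc1, hc2⟩ := hcon
    have hjr : (j : ℝ) * h ≤ (M : ℝ) - m := by exact_mod_cast hj1
    have hjr0 : (0 : ℝ) ≤ (j : ℝ) * h := by positivity
    have hhr : (0 : ℝ) < h := by exact_mod_cast hh0
    -- the first event
    have h1 : |L (B x) m s n (n * q) - L (B x) (m + j * h) (M * q₂) n (n * q) -
          c / 2 * (((m : ℝ) + j * h) * Real.sqrt q + M * q₂ / Real.sqrt q)| ≤ η * M := not_lt.1 hc1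
    -- the second event
    have hdiff : (((m + (j + 1) * h : ℤ)) : ℝ) - m = (j : ℝ) * h + h := by
      push_cast
      ring
    have h2 : |L (B x) m s (m + (j + 1) * h : ℤ) (M * q₂) -
          c * Real.sqrt (((((m + (j + 1) * h : ℤ)) : ℝ) - m) * (M * q₂ - s))| ≤
        η * ((((m + (j + 1) * h : ℤ)) : ℝ) - m) := by
      by_contra h3
      apply hc2
      refine ⟨M * q₂, hsle, ?_, not_le.1 h3⟩
      rw [hdiff]
      have h4 : A₂ * h ≤ A₂ * ((j : ℝ) * h + h) :=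
        mul_le_mul_of_nonneg_left (by linarith) hA₂0.le
      linarith
    rw [hdiff] at h2
    have h5 : (j : ℝ) * h + h ≤ 2 * M := by
      have h6 : ((j : ℝ) + 1) * h ≤ J * h := by
        have : (j : ℝ) + 1 ≤ J := by exact_mod_cast hj
        exact mul_le_mul_of_nonneg_right this hhr.le
      linarith
    have h7 : η * ((j : ℝ) * h + h) ≤ η * (2 * M) := mul_le_mul_of_nonneg_left h5 hη.le
    have h8 := hM₁ M hb1 ((j : ℝ) * h) h hjr0 hjr hhr.le hh3r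
    have h9 := (abs_le.1 h1).1
    have h10 := (abs_le.1 h2).2
    have h11 : 0 ≤ η * M := by positivity
    have hj2' : L (B x) m s n (n * q) - L (B x) (m + j * h) (M * q₂) n (n * q) ≤
      L (B x) m s (m + (j + 1) * h : ℤ) (M * q₂) := hj2
    linarith
  have hE1m : ∀ j, j < J → μ (E1 j) ≤ ENNReal.ofReal (δ / (2 * J)) :=
    fun j hj => hn₀ j hj n (hnj j hj)
  have hE2m : ∀ j, j < J → μ (E2 j) ≤ ENNReal.ofReal (δ / (2 * J)) := by
    intro j _
    refine hN₀ m (m + (j + 1) * h) s ?_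
    have h1 : (N₀ : ℤ) ≤ h := by exact_mod_cast hhN'
    have h2 : (0 : ℤ) ≤ (j : ℤ) * h := by positivity
    linarith
  calc μ {x | ∃ u : ℝ, M * q₂ ≤ u ∧ u ≤ n * q ∧
        L (B x) m s n (n * q) ≤ L (B x) m s M u + L (B x) M u n (n * q)}
      ≤ μ (⋃ j ∈ Finset.range J, (E1 j ∪ E2 j)) := measure_mono hsub
    _ ≤ ∑ j ∈ Finset.range J, μ (E1 j ∪ E2 j) := measure_biUnion_finset_le _ _
    _ ≤ ∑ _j ∈ Finset.range J, (ENNReal.ofReal (δ / (2 * J)) + ENNReal.ofReal (δ / (2 * J))) := by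
        refine Finset.sum_le_sum fun j hj => (measure_union_le _ _).trans ?_
        have hj' := Finset.mem_range.1 hj
        exact add_le_add (hE1m j hj') (hE2m j hj')
    _ = ENNReal.ofReal δ := by
        rw [Finset.sum_const, Finset.card_range, ← ENNReal.ofReal_add hδ'.le hδ'.le, nsmul_eq_mul,
          ← ENNReal.ofReal_natCast, ← ENNReal.ofReal_mul (by positivity)]
        congr 1
        field_simp
        ring

end Pool.Agent.BLP.H67
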